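import Mathlib
import Pool.Agent.H317R3.Free

set_option autoImplicit false

/-! A hierarchy of families of words with two consecutive lengths and long periodic prefixes. -/

namespace Pool.Agent.W19.NR

open Filter Topology Pool.Agent.H317R3

/-- data of one level -/
structure Lv where
  W : Set (List AA)
  H : ℕ
  B : ℕ
  e : List AA
  r : List AA
  N : ℕ

/-- the number of copies of `e` -/
def Lv.M (P : Lv) : ℕ := 8 * P.e.length + 10 + 2 * P.N

/-- the first half of the prefix -/
def Lv.U1 (P : Lv) : List AA := (List.replicate P.M P.e).flatten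

/-- the second half of the prefix -/
def Lv.U2 (P : Lv) : List AA := (List.replicate (2 * P.e.length) (P.e ++ P.r)).flatten

/-- the common prefix of the words of the next level -/
def Lv.U (P : Lv) : List AA := P.U1 ++ P.U2

/-- the next family of words -/
def nxt (P : Lv) : Set (List AA) :=
  {x | ∃ v ∈ H317R3.Star P.W, x = P.U ++ v ∧ (v.length = P.N ∨ v.length = P.N + 1)}

structure Base (W : Set (List AA)) (H B : ℕ) : Prop where
  bd : ∀ w ∈ W, w.length ≤ B
  fill : ∀ n, H ≤ n → ∃ v ∈ H317R3.Star W, v.length = n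
  two : ∃ d0 ∈ W, ∃ d1 ∈ W, d0 ≠ d1 ∧ d0.length = d1.length

structure Gd (k : ℕ) (P : Lv) : Prop where
  base : Base P.W P.H P.B
  e_mem : P.e ∈ H317R3.Star P.W
  e_inf : ∀ w ∈ P.W, w <:+: P.e
  e_pos : 0 < P.e.length
  r_mem : P.r ∈ H317R3.Star P.W
  r_len : P.r.length = P.e.length + 1
  N_ge : 4 * P.B + 4 * P.H + 2 * k + 10 ≤ P.N

structure Nx (P Q : Lv) : Prop where
  W : Q.W = nxt P
  H : Q.H = (P.U.length + P.N) ^ 2
  B : Q.B = P.U.length + P.N + 1

lemma star_replicate {W : Set (List AA)} {v : List AA} (hv : v ∈ H317R3.Star W) (k : ℕ) :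
    (List.replicate k v).flatten ∈ H317R3.Star W := by
  induction k with
  | zero => simpa using star_nil W
  | succ k ih =>
    rw [List.replicate_succ, List.flatten_cons]
    exact star_append hv ih

lemma length_replicate_flatten (v : List AA) (k : ℕ) :
    ((List.replicate k v).flatten).length = k * v.length := by
  simp [List.length_flatten]

lemma U1_length (P : Lv) : P.U1.length = P.M * P.e.length := length_replicate_flatten _ _

lemma U2_length {k : ℕ} {P : Lv} (h : Gd k P) :
    P.U2.length = 2 * P.e.length * (2 * P.e.length + 1) := by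
  have := length_replicate_flatten (P.e ++ P.r) (2 * P.e.length)
  rw [List.length_append, h.r_len] at this
  show ((List.replicate (2 * P.e.length) (P.e ++ P.r)).flatten).length = _
  rw [this]
  ring

lemma U_length {k : ℕ} {P : Lv} (h : Gd k P) :
    P.U.length = P.M * P.e.length + 2 * P.e.length * (2 * P.e.length + 1) := by
  show (P.U1 ++ P.U2).length = _
  rw [List.length_append, U1_length, U2_length h]

lemma U_mem {k : ℕ} {P : Lv} (h : Gd k P) : P.U ∈ H317R3.Star P.W :=
  star_append (star_replicate h.e_mem _) (star_replicate (star_append h.e_mem h.r_mem) _)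

lemma U_ne {k : ℕ} {P : Lv} (h : Gd k P) : 0 < P.U.length := by
  rw [U_length h]
  have := h.e_pos
  have : 0 < P.M := by unfold Lv.M; omega
  positivity

lemma e_prefix_U (P : Lv) : P.e <+: P.U := by
  have h : P.M = (P.M - 1) + 1 := by unfold Lv.M; omega
  have h2 : P.U1 = P.e ++ (List.replicate (P.M - 1) P.e).flatten := by
    show (List.replicate P.M P.e).flatten = _
    conv_lhs => rw [h, List.replicate_succ, List.flatten_cons]
  show P.e <+: P.U1 ++ P.U2
  rw [h2, List.append_assoc]
  exact List.prefix_append _ _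

lemma base_next {k : ℕ} {P : Lv} (h : Gd k P) :
    Base (nxt P) ((P.U.length + P.N) ^ 2) (P.U.length + P.N + 1) := by
  have hN := h.N_ge
  refine ⟨?_, ?_, ?_⟩
  · rintro x ⟨v, hv, rfl, h1 | h1⟩ <;> rw [List.length_append] <;> omega
  · intro n hn
    obtain ⟨v0, hv0, hl0⟩ := h.base.fill P.N (by omega)
    obtain ⟨v1, hv1, hl1⟩ := h.base.fill (P.N + 1) (by omega)
    set l := P.U.length + P.N with hl
    have hlpos : 0 < l := by omega
    have hq : l ≤ n / l := by
      rw [Nat.le_div_iff_mul_le hlpos, ← sq]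
      exact hn
    have hr : n % l < l := Nat.mod_lt _ hlpos
    refine ⟨(List.replicate (n % l) (P.U ++ v1)).flatten ++
      (List.replicate (n / l - n % l) (P.U ++ v0)).flatten, ?_, ?_⟩
    · exact star_append (star_replicate (star_of_mem (W := nxt P) ⟨v1, hv1, rfl, Or.inr hl1⟩) _)
        (star_replicate (star_of_mem (W := nxt P) ⟨v0, hv0, rfl, Or.inl hl0⟩) _)
    · rw [List.length_append, length_replicate_flatten, length_replicate_flatten,
        List.length_append, List.length_append, hl0, hl1, ← hl, ← add_assoc, ← hl]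
      have h1 := Nat.div_add_mod n l
      obtain ⟨c, hc⟩ : ∃ c, n / l = n % l + c := ⟨n / l - n % l, by omega⟩
      rw [hc] at h1 ⊢
      rw [Nat.add_sub_cancel_left]
      nlinarith [h1]
  · obtain ⟨d0, hd0, d1, hd1, hne, hlen⟩ := h.base.two
    have hb := h.base.bd d0 hd0
    obtain ⟨f, hf, hfl⟩ := h.base.fill (P.N - d0.length) (by omega)
    refine ⟨P.U ++ (d0 ++ f), ⟨d0 ++ f, star_append (star_of_mem hd0) hf, rfl, Or.inl ?_⟩,
      P.U ++ (d1 ++ f), ⟨d1 ++ f, star_append (star_of_mem hd1) hf, rfl, Or.inl ?_⟩, ?_, ?_⟩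
    · rw [List.length_append]; omega
    · rw [List.length_append]; omega
    · intro heq
      apply hne
      have h1 := List.append_cancel_left heq
      exact List.append_cancel_right h1
    · simp [hlen]

lemma exists_gd (k : ℕ) {W : Set (List AA)} {H B : ℕ} (h : Base W H B) :
    ∃ P : Lv, Gd k P ∧ P.W = W ∧ P.H = H ∧ P.B = B := by
  obtain ⟨u, hu, hui⟩ := exists_u h.bd
  obtain ⟨f, hf, hfl⟩ := h.fill (H + 1) (by omega)
  obtain ⟨r, hr, hrl⟩ := h.fill ((u ++ f).length + 1) (by rw [List.length_append]; omega)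
  refine ⟨⟨W, H, B, u ++ f, r, 4 * B + 4 * H + 2 * k + 10⟩, ⟨h, star_append hu hf, ?_, ?_, hr,
    hrl, le_rfl⟩, rfl, rfl, rfl⟩
  · intro w hw
    exact (hui w hw).trans (List.prefix_append _ _).isInfix
  · show 0 < (u ++ f).length
    rw [List.length_append]; omega

lemma exists_nx {k : ℕ} {P : Lv} (h : Gd k P) : ∃ Q, Gd (k + 1) Q ∧ Nx P Q := by
  obtain ⟨Q, hQ, h1, h2, h3⟩ := exists_gd (k + 1) (base_next h)
  exact ⟨Q, hQ, h1, h2, h3⟩

lemma exists_fst : ∃ P : Lv, Gd 0 P ∧ P.W = {x | ∃ a : AA, x = [a]} := by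
  have h : Base {x : List AA | ∃ a : AA, x = [a]} 0 1 := by
    refine ⟨?_, ?_, ?_⟩
    · rintro w ⟨a, rfl⟩
      simp
    · intro n _
      refine ⟨(List.replicate n [((true, true) : AA)]).flatten,
        star_replicate (star_of_mem (W := {x : List AA | ∃ a : AA, x = [a]}) ⟨(true, true), rfl⟩) n, ?_⟩
      rw [length_replicate_flatten]
      simp
    · exact ⟨[(true, true)], ⟨_, rfl⟩, [(false, false)], ⟨_, rfl⟩, by simp, rfl⟩
  obtain ⟨P, hP, h1, -⟩ := exists_gd 0 h
  exact ⟨P, hP, h1⟩

lemma exists_lv_seq : ∃ P : ℕ → Lv, (∀ j, Gd j (P j)) ∧ (∀ j, Nx (P j) (P (j + 1))) ∧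
    (P 0).W = {x | ∃ a : AA, x = [a]} := by
  classical
  choose f hf1 hf2 using fun (k : ℕ) (P : {P : Lv // Gd k P}) => exists_nx P.2
  obtain ⟨P0, hP0, h0⟩ := exists_fst
  let Q : ∀ n : ℕ, {P : Lv // Gd n P} := fun n =>
    Nat.rec ⟨P0, hP0⟩ (fun k P => ⟨f k P, hf1 k P⟩) n
  exact ⟨fun n => (Q n).1, fun n => (Q n).2, fun n => hf2 n (Q n), h0⟩

/-- the hierarchy as a hierarchy in the sense of `H317R3` -/
def PP (P : ℕ → Lv) (j : ℕ) : Lvl AA := ⟨(P j).W, 0, 0, 0, 0, [], 0, 0, 0⟩

section seq

variable {P : ℕ → Lv} (hG : ∀ j, Gd j (P j)) (hN : ∀ j, Nx (P j) (P (j + 1)))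

include hG

omit hG in
lemma W_prefix {j : ℕ} (hN : Nx (P j) (P (j + 1))) {w : List AA} (hw : w ∈ (P (j + 1)).W) :
    (P j).U <+: w := by
  rw [hN.W] at hw
  obtain ⟨v, _, rfl, _⟩ := hw
  exact List.prefix_append _ _

lemma W_nonempty (j : ℕ) : ((P j).W).Nonempty := by
  obtain ⟨d, hd, _⟩ := (hG j).base.two
  exact ⟨d, hd⟩

include hN

lemma up {i j : ℕ} (h : i ≤ j) : ∀ w ∈ (P i).W, ∃ w' ∈ (P j).W, w <:+: w' := by
  induction h with
  | refl => exact fun w hw => ⟨w, hw, List.infix_rfl⟩
  | @step j _ ih =>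
    intro w hw
    obtain ⟨w', hw', h1⟩ := ih w hw
    obtain ⟨x, hx⟩ := W_nonempty hG (j + 1)
    exact ⟨x, hx, h1.trans (((hG j).e_inf w' hw').trans
      ((e_prefix_U _).trans (W_prefix (hN j) hx)).isInfix)⟩

lemma down {i j : ℕ} (h : i ≤ j) : (P j).W ⊆ H317R3.Star (P i).W := by
  induction h with
  | refl => exact fun w hw => star_of_mem hw
  | @step j _ ih =>
    have : (P (j + 1)).W ⊆ H317R3.Star (P j).W := by
      intro x hx
      rw [(hN j).W] at hx
      obtain ⟨v, hv, rfl, _⟩ := hx
      exact star_append (U_mem (hG j)) hv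
    exact this.trans (star_subset ih)

lemma lang_in_star {x : List AA} (hx : x ∈ lang (PP P)) (k : ℕ) :
    ∃ z ∈ H317R3.Star (P k).W, x <:+: z := by
  obtain ⟨i, w, hw, h⟩ := hx
  rcases le_total i k with h1 | h1
  · obtain ⟨w', hw', h2⟩ := up hG hN h1 w hw
    exact ⟨w', star_of_mem hw', h.trans h2⟩
  · exact ⟨w, down hG hN h1 hw, h⟩

/-- every word of the language is a factor of the word `e` of all high levels -/
lemma lang_in_e {x : List AA} (hx : x ∈ lang (PP P)) : ∃ j, ∀ k, j ≤ k → x <:+: (P k).e := by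
  obtain ⟨i, w, hw, h⟩ := hx
  refine ⟨i, fun k hk => ?_⟩
  obtain ⟨w', hw', h2⟩ := up hG hN hk w hw
  exact h.trans (h2.trans ((hG k).e_inf w' hw'))

end seq

lemma pos_prefix {α : Type} {W : Set (List α)} {U : List α} {B : ℕ}
    (hW : ∀ w ∈ W, U <+: w ∧ w.length ≤ B) (hU : 0 < U.length) (L : List (List α)) :
    (∀ w ∈ L, w ∈ W) → ∀ s x t : List α, s ++ (x ++ t) = L.flatten → B + U.length ≤ x.length →
    ∃ p q, x = p ++ (U ++ q) ∧ p.length ≤ B := by
  induction L with
  | nil =>
    intro _ s x t h hx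
    simp only [List.flatten_nil, List.append_eq_nil_iff] at h
    rw [h.2.1] at hx
    simp only [List.length_nil] at hx
    omega
  | cons w L ih =>
    intro hL s x t h hx
    rw [List.flatten_cons, List.append_eq_append_iff] at h
    rcases h with ⟨l, h1, h2⟩ | ⟨l, h1, h2⟩
    · have hl : l.length ≤ B := by
        have := (hW w (hL w (by simp))).2
        rw [h1, List.length_append] at this
        omega
      rw [List.append_eq_append_iff] at h2
      rcases h2 with ⟨l', h3, h4⟩ | ⟨l', h3, h4⟩
      · exfalso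
        rw [h3, List.length_append] at hl
        omega
      · have hl' : U.length ≤ l'.length := by
          rw [h3, List.length_append] at hx
          omega
        cases L with
        | nil =>
          simp only [List.flatten_nil] at h4
          have h5 := congrArg List.length h4
          simp only [List.length_nil, List.length_append] at h5
          omega
        | cons w' L' =>
          rw [List.flatten_cons] at h4
          have hw' : U <+: w' := (hW w' (hL w' (by simp))).1
          have h6 : U <+: l' ++ t := by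
            rw [← h4]
            exact hw'.trans (List.prefix_append _ _)
          obtain ⟨q, hq⟩ := List.prefix_of_prefix_length_le h6 (List.prefix_append _ _) hl'
          exact ⟨l, q, by rw [h3, hq], hl⟩
    · exact ih (fun v hv => hL v (by simp [hv])) l x t h2.symm hx

/-- the word `v` occurs in `y` at the position `a` -/
def Occ (y : ℤ → AA) (a : ℤ) (v : List AA) : Prop := word y a v.length = v

lemma occ_append {y : ℤ → AA} {a : ℤ} {v w : List AA} :
    Occ y a (v ++ w) ↔ Occ y a v ∧ Occ y (a + v.length) w := by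
  unfold Occ
  rw [List.length_append, word_append]
  constructor
  · intro h
    exact List.append_inj h (by simp)
  · rintro ⟨h1, h2⟩
    rw [h1, h2]

lemma occ_replicate {y : ℤ → AA} {v : List AA} (k : ℕ) : ∀ {a : ℤ},
    Occ y a (List.replicate k v).flatten → ∀ i < k, Occ y (a + i * v.length) v := by
  induction k with
  | zero => intro a _ i hi; omega
  | succ k ih =>
    intro a h i hi
    rw [List.replicate_succ, List.flatten_cons, occ_append] at h
    cases i with
    | zero => simpa using h.1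
    | succ i =>
      have := ih h.2 i (by omega)
      convert this using 1
      push_cast
      ring

lemma occ_get {y : ℤ → AA} {a : ℤ} {v : List AA} (h : Occ y a v) {i : ℕ} (hi : i < v.length) :
    v[i]? = some (y (a + i)) := by
  have : (word y a v.length)[i]? = some (y (a + i)) := word_get y a v.length i hi
  rwa [h] at this

lemma occ_word {y z : ℤ → AA} {a b : ℤ} {n : ℕ} (h : Occ y a (word z b n)) {i : ℕ} (hi : i < n) :
    y (a + i) = z (b + i) := by
  have h1 := occ_get h (i := i) (by simpa using hi)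
  rw [word_get _ _ _ _ hi] at h1
  exact (Option.some.inj h1).symm

section seq2

variable {P : ℕ → Lv} (hG : ∀ j, Gd j (P j)) (hN : ∀ j, Nx (P j) (P (j + 1)))

include hG hN

/-- the prefix `U` occurs in every window -/
lemma occ_U {y : ℤ → AA} (hy : y ∈ Y (PP P)) (j : ℕ) (x : ℤ) :
    ∃ a, x ≤ a ∧ a ≤ x + (P (j + 1)).B ∧ Occ y a (P j).U := by
  obtain ⟨z, hz, hxz⟩ := lang_in_star hG hN (hy x ((P (j + 1)).B + (P j).U.length)) (j + 1)
  obtain ⟨s, t, h⟩ := hxz
  obtain ⟨L, hL, rfl⟩ := hz
  obtain ⟨p, q, hpq, hpl⟩ := pos_prefix (W := (P (j + 1)).W) (U := (P j).U) (B := (P (j + 1)).B)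
    (fun w hw => ⟨W_prefix (hN j) hw, (hG (j + 1)).base.bd w hw⟩) (U_ne (hG j)) L hL s
    (word y x ((P (j + 1)).B + (P j).U.length)) t (by rw [← h]; simp) (by simp)
  have hocc : Occ y x (p ++ ((P j).U ++ q)) := by
    have h1 : Occ y x (word y x ((P (j + 1)).B + (P j).U.length)) := by
      unfold Occ
      rw [word_length]
    rwa [hpq] at h1
  rw [occ_append, occ_append] at hocc
  exact ⟨x + p.length, by omega, by omega, hocc.2.1⟩

/-- the key lemma: two factors of `e` occur in `y` and `z` at positions of the form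
`2 n - m`, `n - m` -/
lemma two_one {y z : ℤ → AA} (hy : y ∈ Y (PP P)) (hz : z ∈ Y (PP P)) (j m : ℕ) {p q : List AA}
    (hp : p <:+: (P j).e) (hq : q <:+: (P j).e) :
    ∃ n : ℤ, Occ y (2 * n - m) p ∧ Occ z (n - m) q := by
  obtain ⟨s1, t1, h1⟩ := hp
  obtain ⟨s2, t2, h2⟩ := hq
  have hL := (hG j).e_pos
  have hU := U_length (hG j)
  have hB := (hN j).B
  set L := (P j).e.length with hLdef
  set M := (P j).M with hM
  have hMv : M = 8 * L + 10 + 2 * (P j).N := rfl
  have hs1 : s1.length ≤ L := by
    have := congrArg List.length h1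
    simp only [List.length_append] at this
    omega
  have hs2 : s2.length ≤ L := by
    have := congrArg List.length h2
    simp only [List.length_append] at this
    omega
  obtain ⟨az, -, -, haz⟩ := occ_U hG hN hz j 0
  obtain ⟨ay, hay1, hay2, hay⟩ := occ_U hG hN hy j (2 * az - M * L + 2 * L + m)
  have hz1 : ∀ i < M, Occ z (az + i * L) (P j).e := by
    have : Occ z az ((P j).U1 ++ (P j).U2) := haz
    rw [occ_append] at this
    exact occ_replicate M this.1
  have hy1 : ∀ i < 2 * L, Occ y (ay + M * L + i * (2 * L + 1)) (P j).e := by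
    have h3 : Occ y ay ((P j).U1 ++ (P j).U2) := hay
    rw [occ_append] at h3
    intro i hi
    have h4 := occ_replicate (2 * L) h3.2 i hi
    rw [occ_append, List.length_append, (hG j).r_len, U1_length, ← hLdef, ← hM] at h4
    convert h4.1 using 1
    push_cast
    ring
  -- the solution of the congruence
  obtain ⟨g, hg⟩ : ∃ g : ℕ, (g : ℤ) = ay + M * L - 2 * az - m + s1.length - 2 * s2.length :=
    ⟨(ay + M * L - 2 * az - m + s1.length - 2 * s2.length).toNat, by
      rw [Int.toNat_of_nonneg]
      omega⟩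
  have hgle : (g : ℤ) ≤ 3 * L + (P (j + 1)).B := by
    rw [hg]; omega
  have hgle' : g ≤ 3 * L + (P (j + 1)).B := by exact_mod_cast hgle
  obtain ⟨s, i, hs, hi⟩ : ∃ s i : ℕ, 2 * L * s = g + i ∧ i < 2 * L := by
    refine ⟨(g + 2 * L - 1) / (2 * L), 2 * L * ((g + 2 * L - 1) / (2 * L)) - g, ?_, ?_⟩
    · have e1 := Nat.div_add_mod (g + 2 * L - 1) (2 * L)
      have e2 := Nat.mod_lt (g + 2 * L - 1) (show 0 < 2 * L by omega)
      omega
    · have e1 := Nat.div_add_mod (g + 2 * L - 1) (2 * L)
      omega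
  have hiM : i + s < M := by
    by_contra hcon
    push Not at hcon
    have hs' : M + 1 ≤ s + 2 * L := by omega
    have e1 : 2 * L * (M + 1) ≤ 2 * L * s + 2 * L * (2 * L) := by
      have := Nat.mul_le_mul_left (2 * L) hs'
      rw [Nat.mul_add (2 * L) s] at this
      exact this
    rw [hs] at e1
    rw [hB, hU] at hgle'
    have e2 : g + i ≤ 3 * L + (M * L + 2 * L * (2 * L + 1) + (P j).N + 1) + 2 * L := by omega
    have e3 : (P j).N ≤ (P j).N * L := Nat.le_mul_of_pos_right _ hL
    rw [hMv] at e1 e2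
    nlinarith
  refine ⟨az + (i + s : ℕ) * L + s2.length + m, ?_, ?_⟩
  · have h3 := hy1 i hi
    rw [← h1, occ_append, occ_append] at h3
    convert h3.1.2 using 1
    have h4 : (2 * L * s : ℤ) = g + i := by exact_mod_cast hs
    rw [hg] at h4
    push_cast
    linarith
  · have h3 := hz1 (i + s) hiM
    rw [← h2, occ_append, occ_append] at h3
    convert h3.1.2 using 1
    ring

end seq2

end Pool.Agent.W19.NR
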