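import Mathlib

set_option autoImplicit false

/-! Topological splitting: a homeomorphism with the product of two Cantor spaces whose first
coordinates avoid prescribed clopen sets. -/

namespace Pool.Agent.W19.NR

open Filter Topology

variable {X : Type} [TopologicalSpace X]

/-- `C` has no isolated points -/
def NI (C : Set X) : Prop := ∀ x ∈ C, ∀ O : Set X, IsOpen O → x ∈ O → ∃ y ∈ C, y ∈ O ∧ y ≠ x

lemma NI.inter {C : Set X} (h : NI C) {O : Set X} (hO : IsOpen O) : NI (C ∩ O) := by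
  rintro x ⟨hx, hxO⟩ O' hO' hx'
  obtain ⟨y, hy, hyO, hne⟩ := h x hx (O ∩ O') (hO.inter hO') ⟨hxO, hx'⟩
  exact ⟨y, ⟨hy, hyO.1⟩, hyO.2, hne⟩

/-- `S` contains a nonempty set without isolated points whose points avoid `A n`, `n ≥ N` -/
def Ok (A : ℕ → Set X) (S : Set X) (N : ℕ) : Prop :=
  ∃ C : Set X, C ⊆ S ∧ C.Nonempty ∧ NI C ∧ ∀ x ∈ C, ∀ n, N ≤ n → x ∉ A n

lemma Ok.mono {A : ℕ → Set X} {S S' : Set X} {N N' : ℕ} (h : Ok A S N) (hS : S ⊆ S')
    (hN : N ≤ N') : Ok A S' N' := by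
  obtain ⟨C, h1, h2, h3, h4⟩ := h
  exact ⟨C, h1.trans hS, h2, h3, fun x hx n hn => h4 x hx n (hN.trans hn)⟩

/-- `Ok` together with a pending decision of the function `V` -/
def Ok2 (A : ℕ → Set X) (V : X → Bool) (S : Set X) (N N' : ℕ) : Prop :=
  Ok A S N ∧ ∀ c : Bool, (∃ x ∈ S, V x = c) → Ok A (S ∩ V ⁻¹' {c}) N'

lemma exists_clopen [CompactSpace X] [T2Space X] [TotallyDisconnectedSpace X] {O : Set X}
    (hO : IsOpen O) {x : X} (hx : x ∈ O) : ∃ q : Set X, IsClopen q ∧ x ∈ q ∧ q ⊆ O :=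
  compact_exists_isClopen_in_isOpen hO hx

lemma zstep_one [CompactSpace X] [T2Space X] [TotallyDisconnectedSpace X] {A : ℕ → Set X}
    (hA : ∀ n, IsClopen (A n)) {V : X → Bool} (hV : Continuous V) {S : Set X} (hS : IsClopen S)
    {N N' : ℕ} (hN : N ≤ N') (h : Ok2 A V S N N') :
    ∃ q : Set X, IsClopen q ∧ q ⊆ S ∧ (∀ x ∈ q, x ∉ A N) ∧ Ok2 A V q (N + 1) N' ∧
      Ok2 A V (S \ q) (N + 1) N' := by
  obtain ⟨⟨C, hCS, ⟨x, hx⟩, hCN, hCA⟩, h2⟩ := h
  obtain ⟨x', hx', -, hne'⟩ := hCN x hx Set.univ isOpen_univ trivial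
  have h3 : ∀ c : Bool, ∃ D : Set X, ∃ y : X, y ≠ x ∧ ((∃ x ∈ S, V x = c) →
      y ∈ D ∧ D ⊆ S ∩ V ⁻¹' {c} ∧ NI D ∧ ∀ x ∈ D, ∀ n, N' ≤ n → x ∉ A n) := by
    intro c
    by_cases hc : ∃ x ∈ S, V x = c
    · obtain ⟨D, hD1, ⟨y, hy⟩, hD3, hD4⟩ := h2 c hc
      by_cases hyx : y = x
      · obtain ⟨y', hy', -, hne⟩ := hD3 y hy Set.univ isOpen_univ trivial
        exact ⟨D, y', by rw [← hyx]; exact hne, fun _ => ⟨hy', hD1, hD3, hD4⟩⟩
      · exact ⟨D, y, hyx, fun _ => ⟨hy, hD1, hD3, hD4⟩⟩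
    · exact ⟨∅, x', hne', fun h => absurd h hc⟩
  choose D y hyx hD using h3
  obtain ⟨q, hq, hxq, hqO⟩ := exists_clopen
    (O := S ∩ (A N)ᶜ ∩ V ⁻¹' {V x} ∩ {x'}ᶜ ∩ {y true}ᶜ ∩ {y false}ᶜ)
    (((((hS.isOpen.inter (hA N).compl.isOpen).inter
      ((isOpen_discrete _).preimage hV)).inter isClosed_singleton.isOpen_compl).inter
      isClosed_singleton.isOpen_compl).inter isClosed_singleton.isOpen_compl)
    (x := x) ⟨⟨⟨⟨⟨hCS hx, hCA x hx N le_rfl⟩, rfl⟩, hne'.symm⟩, (hyx true).symm⟩,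
      (hyx false).symm⟩
  have hqS : q ⊆ S := fun z hz => (hqO hz).1.1.1.1.1
  have hqA : ∀ z ∈ q, z ∉ A N := fun z hz => (hqO hz).1.1.1.1.2
  have hqV : ∀ z ∈ q, V z = V x := fun z hz => (hqO hz).1.1.1.2
  have hqx' : x' ∉ q := fun hz => (hqO hz).1.1.2 rfl
  have hqy : ∀ c, y c ∉ q := by
    intro c hz
    cases c
    · exact (hqO hz).2 rfl
    · exact (hqO hz).1.2 rfl
  have hokq : Ok A (q) N := ⟨C ∩ q, Set.inter_subset_right, ⟨x, hx, hxq⟩, hCN.inter hq.isOpen,
    fun z hz => hCA z hz.1⟩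
  refine ⟨q, hq, hqS, hqA, ⟨hokq.mono subset_rfl (by omega), ?_⟩, ⟨?_, ?_⟩⟩
  · rintro c ⟨z, hz, hzc⟩
    refine hokq.mono (fun w hw => ⟨hw, ?_⟩) hN
    show V w = c
    rw [hqV w hw, ← hqV z hz, hzc]
  · refine ⟨C ∩ qᶜ, fun z hz => ⟨hCS hz.1, hz.2⟩, ⟨x', hx', hqx'⟩, hCN.inter hq.compl.isOpen,
      fun z hz n hn => hCA z hz.1 n (by omega)⟩
  · rintro c ⟨z, hz, hzc⟩
    obtain ⟨e1, e2, e3, e4⟩ := hD c ⟨z, hz.1, hzc⟩
    exact ⟨D c ∩ qᶜ, fun w hw => ⟨⟨(e2 hw.1).1, hw.2⟩, (e2 hw.1).2⟩, ⟨y c, e1, hqy c⟩,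
      e3.inter hq.compl.isOpen, fun w hw => e4 w hw.1⟩

lemma wstep_one [CompactSpace X] [T2Space X] [TotallyDisconnectedSpace X] {A : ℕ → Set X}
    {V : X → Bool} (hV : Continuous V) {S : Set X} (hS : IsClopen S)
    {N N' : ℕ} (hN : N' ≤ N) (h : Ok2 A V S N N') :
    ∃ q : Set X, IsClopen q ∧ q ⊆ S ∧ Ok A q N ∧ Ok A (S \ q) N ∧
      (∀ x ∈ q, ∀ y ∈ q, V x = V y) ∧ (∀ x ∈ S \ q, ∀ y ∈ S \ q, V x = V y) := by
  obtain ⟨⟨C, hCS, ⟨x, hx⟩, hCN, hCA⟩, h2⟩ := h
  by_cases hb : (∃ x ∈ S, V x = true) ∧ (∃ x ∈ S, V x = false)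
  · refine ⟨S ∩ V ⁻¹' {true}, hS.inter ((isClopen_discrete _).preimage hV),
      Set.inter_subset_left, (h2 true hb.1).mono subset_rfl hN, ?_, ?_, ?_⟩
    · refine (h2 false hb.2).mono (fun z hz => ⟨hz.1, fun hz' => ?_⟩) hN
      have e1 : V z = false := hz.2
      have e2 : V z = true := hz'.2
      rw [e1] at e2
      exact absurd e2 (by simp)
    · rintro x ⟨_, hx⟩ y ⟨_, hy⟩
      have e1 : V x = true := hx
      have e2 : V y = true := hy
      rw [e1, e2]
    · have key : ∀ x ∈ S \ (S ∩ V ⁻¹' {true}), V x = false := by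
        rintro x ⟨hx1, hx2⟩
        by_contra hne
        exact hx2 ⟨hx1, by simpa using hne⟩
      intro x hx y hy
      rw [key x hx, key y hy]
  · have hconst : ∀ x ∈ S, ∀ y ∈ S, V x = V y := by
      intro x hx y hy
      by_contra hne
      apply hb
      rcases hvx : V x with _ | _
      · refine ⟨⟨y, hy, ?_⟩, ⟨x, hx, hvx⟩⟩
        rcases hvy : V y with _ | _
        · rw [hvx, hvy] at hne; exact absurd rfl hne
        · rfl
      · refine ⟨⟨x, hx, hvx⟩, ⟨y, hy, ?_⟩⟩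
        rcases hvy : V y with _ | _
        · rfl
        · rw [hvx, hvy] at hne; exact absurd rfl hne
    obtain ⟨x', hx', -, hne'⟩ := hCN x hx Set.univ isOpen_univ trivial
    obtain ⟨q, hq, hxq, hqO⟩ := exists_clopen (O := S ∩ {x'}ᶜ)
      (hS.isOpen.inter isClosed_singleton.isOpen_compl) (x := x) ⟨hCS hx, hne'.symm⟩
    have hqS : q ⊆ S := fun z hz => (hqO hz).1
    have hqx' : x' ∉ q := fun hz => (hqO hz).2 rfl
    refine ⟨q, hq, hqS, ⟨C ∩ q, Set.inter_subset_right, ⟨x, hx, hxq⟩, hCN.inter hq.isOpen,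
      fun z hz => hCA z hz.1⟩, ⟨C ∩ qᶜ, fun z hz => ⟨hCS hz.1, hz.2⟩, ⟨x', hx', hqx'⟩,
      hCN.inter hq.compl.isOpen, fun z hz => hCA z hz.1⟩, ?_, ?_⟩
    · exact fun x hx y hy => hconst x (hqS hx) y (hqS hy)
    · exact fun x hx y hy => hconst x hx.1 y hy.1

/-- a clopen piece of every fibre of a continuous map into a discrete space -/
lemma glue {β : Type} [TopologicalSpace β] [DiscreteTopology β] {F : X → β} (hF : Continuous F)
    (q : β → Set X) (hq : ∀ b, IsClopen (q b)) :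
    ∃ g : X → Bool, Continuous g ∧ ∀ x, g x = true ↔ x ∈ q (F x) := by
  classical
  refine ⟨fun x => decide (x ∈ q (F x)), ?_, fun x => by simp⟩
  apply IsLocallyConstant.continuous
  rw [IsLocallyConstant.iff_exists_open]
  intro x
  by_cases hx : x ∈ q (F x)
  · refine ⟨F ⁻¹' {F x} ∩ q (F x), ((isOpen_discrete _).preimage hF).inter (hq _).isOpen,
      ⟨rfl, hx⟩, ?_⟩
    rintro y ⟨hy1, hy2⟩
    have hy1' : F y = F x := hy1
    simp only [hy1', hy2, hx]
  · refine ⟨F ⁻¹' {F x} ∩ (q (F x))ᶜ, ((isOpen_discrete _).preimage hF).inter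
      (hq _).compl.isOpen, ⟨rfl, hx⟩, ?_⟩
    rintro y ⟨hy1, hy2⟩
    have hy1' : F y = F x := hy1
    have hy2' : y ∉ q (F x) := hy2
    simp only [hy1', hy2', hx]

/-- the atom of the coordinates `z l`, `l < i`, and `w l`, `l < n` -/
def atom (z w : ℕ → X → Bool) (i n : ℕ) (a b : ℕ → Bool) : Set X :=
  {x | (∀ l < i, z l x = a l) ∧ ∀ l < n, w l x = b l}

/-- the data of the first coordinates -/
structure Pre (A : ℕ → Set X) (M : ℕ) (V : ℕ → X → Bool) (z w : ℕ → X → Bool) (i n : ℕ) :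
    Prop where
  hz : ∀ l, Continuous (z l)
  hw : ∀ l, Continuous (w l)
  avoid : ∀ l < i, ∀ x, z l x = true → x ∉ A (M + l)
  dec : ∀ l < n, ∀ x y, (∀ k < i, z k x = z k y) → (∀ k < n, w k x = w k y) → V l x = V l y

/-- restriction of a sequence -/
def rs (i : ℕ) (a : ℕ → Bool) : Fin i → Bool := fun l => a l

/-- the map to the finite coordinates -/
def Fmap (z w : ℕ → X → Bool) (i n : ℕ) (x : X) : (Fin i → Bool) × (Fin n → Bool) :=
  (rs i fun l => z l x, rs n fun l => w l x)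

lemma Fmap_cont {z w : ℕ → X → Bool} (hz : ∀ l, Continuous (z l)) (hw : ∀ l, Continuous (w l))
    (i n : ℕ) : Continuous (Fmap z w i n) :=
  Continuous.prodMk (continuous_pi fun l : Fin i => hz l) (continuous_pi fun l : Fin n => hw l)

omit [TopologicalSpace X] in
lemma mem_atom_iff {z w : ℕ → X → Bool} {i n : ℕ} {a b : ℕ → Bool} {x : X} :
    x ∈ atom z w i n a b ↔ Fmap z w i n x = (rs i a, rs n b) := by
  constructor
  · rintro ⟨h1, h2⟩
    exact Prod.ext (funext fun l => h1 l l.2) (funext fun l => h2 l l.2)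
  · intro h
    exact ⟨fun l hl => congrFun (congrArg Prod.fst h) ⟨l, hl⟩,
      fun l hl => congrFun (congrArg Prod.snd h) ⟨l, hl⟩⟩

lemma atom_clopen {z w : ℕ → X → Bool} (hz : ∀ l, Continuous (z l))
    (hw : ∀ l, Continuous (w l)) (i n : ℕ) (a b : ℕ → Bool) : IsClopen (atom z w i n a b) := by
  have : atom z w i n a b = Fmap z w i n ⁻¹' {(rs i a, rs n b)} := by
    ext x
    exact mem_atom_iff
  rw [this]
  exact (isClopen_discrete _).preimage (Fmap_cont hz hw i n)

/-- extend a finite sequence -/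
def ext0 {i : ℕ} (a : Fin i → Bool) (l : ℕ) : Bool := if h : l < i then a ⟨l, h⟩ else false

omit [TopologicalSpace X] in
lemma atom_ext {z w : ℕ → X → Bool} {i n : ℕ} {a b : ℕ → Bool} :
    atom z w i n (ext0 (rs i a)) (ext0 (rs n b)) = atom z w i n a b := by
  ext x
  constructor
  · rintro ⟨h1, h2⟩
    refine ⟨fun l hl => ?_, fun l hl => ?_⟩
    · rw [h1 l hl]; simp [ext0, rs, hl]
    · rw [h2 l hl]; simp [ext0, rs, hl]
  · rintro ⟨h1, h2⟩
    refine ⟨fun l hl => ?_, fun l hl => ?_⟩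
    · rw [h1 l hl]; simp [ext0, rs, hl]
    · rw [h2 l hl]; simp [ext0, rs, hl]

variable [CompactSpace X] [T2Space X] [TotallyDisconnectedSpace X]

lemma zstep {A : ℕ → Set X} (hA : ∀ n, IsClopen (A n)) {M : ℕ} {V : ℕ → X → Bool}
    (hV : ∀ n, Continuous (V n)) {z w : ℕ → X → Bool} {i n N' : ℕ} (hP : Pre A M V z w i n)
    (hN : M + i ≤ N') (h : ∀ a b, Ok2 A (V n) (atom z w i n a b) (M + i) N') :
    ∃ z', Pre A M V z' w (i + 1) n ∧ (∀ l < i, z' l = z l) ∧
      ∀ a b, Ok2 A (V n) (atom z' w (i + 1) n a b) (M + (i + 1)) N' := by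
  choose q hq1 hq2 hq3 hq4 hq5 using fun (a : Fin i → Bool) (b : Fin n → Bool) =>
    zstep_one hA (hV n) (atom_clopen hP.hz hP.hw i n (ext0 a) (ext0 b)) hN
      (h (ext0 a) (ext0 b))
  obtain ⟨g, hg, hgq⟩ := glue (Fmap_cont hP.hz hP.hw i n) (fun p => q p.1 p.2)
    (fun p => hq1 p.1 p.2)
  let z' : ℕ → X → Bool := fun l => if l < i then z l else if l = i then g else fun _ => false
  have hz'1 : ∀ l < i, z' l = z l := fun l hl => by simp [z', hl]
  have hz'2 : z' i = g := by simp [z']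
  have hat : ∀ a b, atom z' w (i + 1) n a b = atom z w i n a b ∩ g ⁻¹' {a i} := by
    intro a b
    ext x
    constructor
    · rintro ⟨h1, h2⟩
      refine ⟨⟨fun l hl => ?_, h2⟩, ?_⟩
      · rw [← hz'1 l hl]; exact h1 l (by omega)
      · show g x = a i
        rw [← hz'2]; exact h1 i (by omega)
    · rintro ⟨⟨h1, h2⟩, h3⟩
      refine ⟨fun l hl => ?_, h2⟩
      rcases Nat.lt_succ_iff_lt_or_eq.1 hl with h4 | h4
      · rw [hz'1 l h4]; exact h1 l h4
      · subst h4
        rw [hz'2]; exact h3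
  refine ⟨z', ⟨?_, hP.hw, ?_, ?_⟩, hz'1, ?_⟩
  · intro l
    by_cases h1 : l < i
    · rw [hz'1 l h1]; exact hP.hz l
    · by_cases h2 : l = i
      · rw [h2, hz'2]; exact hg
      · have : z' l = fun _ => false := by simp [z', h1, h2]
        rw [this]; exact continuous_const
  · intro l hl x hx
    rcases Nat.lt_succ_iff_lt_or_eq.1 hl with h4 | h4
    · rw [hz'1 l h4] at hx
      exact hP.avoid l h4 x hx
    · subst h4
      rw [hz'2, hgq] at hx
      exact hq3 _ _ x hx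
  · intro l hl x y h1 h2
    refine hP.dec l hl x y (fun k hk => ?_) h2
    rw [← hz'1 k hk]
    exact h1 k (by omega)
  · intro a b
    rw [hat]
    have h6 : atom z w i n a b ∩ g ⁻¹' {true} = q (rs i a) (rs n b) := by
      ext x
      constructor
      · rintro ⟨h7, h8⟩
        have h9 := (hgq x).1 h8
        rw [mem_atom_iff.1 h7] at h9
        exact h9
      · intro h7
        have h8 : x ∈ atom z w i n a b := by
          rw [← atom_ext (z := z) (w := w) (i := i) (n := n) (a := a) (b := b)]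
          exact hq2 _ _ h7
        refine ⟨h8, ?_⟩
        show g x = true
        rw [hgq, mem_atom_iff.1 h8]
        exact h7
    have h7 : atom z w i n a b ∩ g ⁻¹' {false} =
        atom z w i n a b \ q (rs i a) (rs n b) := by
      rw [← h6]
      ext x
      constructor
      · rintro ⟨h8, h9⟩
        refine ⟨h8, fun h10 => ?_⟩
        have e1 : g x = false := h9
        have e2 : g x = true := h10.2
        rw [e1] at e2
        exact absurd e2 (by simp)
      · rintro ⟨h8, h9⟩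
        refine ⟨h8, ?_⟩
        show g x = false
        by_contra hne
        exact h9 ⟨h8, by simpa using hne⟩
    rcases hai : a i with _ | _
    · rw [h7]
      have := hq5 (rs i a) (rs n b)
      rw [atom_ext] at this
      exact this
    · rw [h6]
      exact hq4 (rs i a) (rs n b)

lemma wstep {A : ℕ → Set X} {M : ℕ} {V : ℕ → X → Bool}
    (hV : ∀ n, Continuous (V n)) {z w : ℕ → X → Bool} {i n N' : ℕ} (hP : Pre A M V z w i n)
    (hN : N' ≤ M + i) (h : ∀ a b, Ok2 A (V n) (atom z w i n a b) (M + i) N') :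
    ∃ w', Pre A M V z w' i (n + 1) ∧ (∀ l < n, w' l = w l) ∧
      ∀ a b, Ok A (atom z w' i (n + 1) a b) (M + i) := by
  choose q hq1 hq2 hq3 hq4 hq5 hq6 using fun (a : Fin i → Bool) (b : Fin n → Bool) =>
    wstep_one (hV n) (atom_clopen hP.hz hP.hw i n (ext0 a) (ext0 b)) hN
      (h (ext0 a) (ext0 b))
  obtain ⟨g, hg, hgq⟩ := glue (Fmap_cont hP.hz hP.hw i n) (fun p => q p.1 p.2)
    (fun p => hq1 p.1 p.2)
  let w' : ℕ → X → Bool := fun l => if l < n then w l else if l = n then g else fun _ => false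
  have hw'1 : ∀ l < n, w' l = w l := fun l hl => by simp [w', hl]
  have hw'2 : w' n = g := by simp [w']
  have hat : ∀ a b, atom z w' i (n + 1) a b = atom z w i n a b ∩ g ⁻¹' {b n} := by
    intro a b
    ext x
    constructor
    · rintro ⟨h1, h2⟩
      refine ⟨⟨h1, fun l hl => ?_⟩, ?_⟩
      · rw [← hw'1 l hl]; exact h2 l (by omega)
      · show g x = b n
        rw [← hw'2]; exact h2 n (by omega)
    · rintro ⟨⟨h1, h2⟩, h3⟩
      refine ⟨h1, fun l hl => ?_⟩
      rcases Nat.lt_succ_iff_lt_or_eq.1 hl with h4 | h4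
      · rw [hw'1 l h4]; exact h2 l h4
      · subst h4
        rw [hw'2]; exact h3
  have h6 : ∀ a b, atom z w i n a b ∩ g ⁻¹' {true} = q (rs i a) (rs n b) := by
    intro a b
    ext x
    constructor
    · rintro ⟨h7, h8⟩
      have h9 := (hgq x).1 h8
      rw [mem_atom_iff.1 h7] at h9
      exact h9
    · intro h7
      have h8 : x ∈ atom z w i n a b := by
        rw [← atom_ext (z := z) (w := w) (i := i) (n := n) (a := a) (b := b)]
        exact hq2 _ _ h7
      refine ⟨h8, ?_⟩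
      show g x = true
      rw [hgq, mem_atom_iff.1 h8]
      exact h7
  have h7 : ∀ a b, atom z w i n a b ∩ g ⁻¹' {false} =
      atom z w i n a b \ q (rs i a) (rs n b) := by
    intro a b
    rw [← h6]
    ext x
    constructor
    · rintro ⟨h8, h9⟩
      refine ⟨h8, fun h10 => ?_⟩
      have e1 : g x = false := h9
      have e2 : g x = true := h10.2
      rw [e1] at e2
      exact absurd e2 (by simp)
    · rintro ⟨h8, h9⟩
      refine ⟨h8, ?_⟩
      show g x = false
      by_contra hne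
      exact h9 ⟨h8, by simpa using hne⟩
  refine ⟨w', ⟨hP.hz, ?_, hP.avoid, ?_⟩, hw'1, ?_⟩
  · intro l
    by_cases h1 : l < n
    · rw [hw'1 l h1]; exact hP.hw l
    · by_cases h2 : l = n
      · rw [h2, hw'2]; exact hg
      · have : w' l = fun _ => false := by simp [w', h1, h2]
        rw [this]; exact continuous_const
  · intro l hl x y h1 h2
    have h2' : ∀ k < n, w k x = w k y := fun k hk => by
      rw [← hw'1 k hk]
      exact h2 k (by omega)
    rcases Nat.lt_succ_iff_lt_or_eq.1 hl with h4 | h4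
    · exact hP.dec l h4 x y h1 h2'
    · subst h4
      have h5 : g x = g y := by
        rw [← hw'2]; exact h2 l (by omega)
      have hxa : x ∈ atom z w i l (fun k => z k x) (fun k => w k x) := ⟨fun _ _ => rfl, fun _ _ => rfl⟩
      have hya : y ∈ atom z w i l (fun k => z k x) (fun k => w k x) :=
        ⟨fun k hk => (h1 k hk).symm, fun k hk => (h2' k hk).symm⟩
      rcases hgx : g x with _ | _
      · have hgy : g y = false := by rw [← h5, hgx]
        have e1 : x ∈ atom z w i l (fun k => z k x) (fun k => w k x) ∩ g ⁻¹' {false} :=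
          ⟨hxa, hgx⟩
        have e2 : y ∈ atom z w i l (fun k => z k x) (fun k => w k x) ∩ g ⁻¹' {false} :=
          ⟨hya, hgy⟩
        rw [h7] at e1 e2
        have := hq6 (rs i fun k => z k x) (rs l fun k => w k x)
        rw [atom_ext (z := z) (w := w) (i := i) (n := l) (a := fun k => z k x)
          (b := fun k => w k x)] at this
        exact this x e1 y e2
      · have hgy : g y = true := by rw [← h5, hgx]
        have e1 : x ∈ atom z w i l (fun k => z k x) (fun k => w k x) ∩ g ⁻¹' {true} :=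
          ⟨hxa, hgx⟩
        have e2 : y ∈ atom z w i l (fun k => z k x) (fun k => w k x) ∩ g ⁻¹' {true} :=
          ⟨hya, hgy⟩
        rw [h6] at e1 e2
        exact hq5 (rs i fun k => z k x) (rs l fun k => w k x) x e1 y e2
  · intro a b
    rw [hat]
    rcases hbn : b n with _ | _
    · rw [h7]
      have := hq4 (rs i a) (rs n b)
      rw [atom_ext] at this
      exact this
    · rw [h6]
      exact hq3 (rs i a) (rs n b)

/-- one stage: at least one new `z` coordinate and one new `w` coordinate -/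
lemma stage {A : ℕ → Set X} (hA : ∀ n, IsClopen (A n))
    (hdense : ∀ O : Set X, IsOpen O → O.Nonempty → ∃ N, Ok A O N) {M : ℕ} {V : ℕ → X → Bool}
    (hV : ∀ n, Continuous (V n)) {z w : ℕ → X → Bool} {i n : ℕ} (hP : Pre A M V z w i n)
    (h : ∀ a b, Ok A (atom z w i n a b) (M + i)) :
    ∃ (i' : ℕ) (z' w' : ℕ → X → Bool), i + 1 ≤ i' ∧ Pre A M V z' w' i' (n + 1) ∧
      (∀ l < i, z' l = z l) ∧ (∀ l < n, w' l = w l) ∧
      ∀ a b, Ok A (atom z' w' i' (n + 1) a b) (M + i') := by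
  classical
  -- a common bound for the pending decisions
  have h1 : ∀ (a : Fin i → Bool) (b : Fin n → Bool) (c : Bool), ∃ N,
      (∃ x ∈ atom z w i n (ext0 a) (ext0 b), V n x = c) →
        Ok A (atom z w i n (ext0 a) (ext0 b) ∩ V n ⁻¹' {c}) N := by
    intro a b c
    by_cases hc : ∃ x ∈ atom z w i n (ext0 a) (ext0 b), V n x = c
    · obtain ⟨x, hx, hxc⟩ := hc
      obtain ⟨N, hN⟩ := hdense (atom z w i n (ext0 a) (ext0 b) ∩ V n ⁻¹' {c})
        ((atom_clopen hP.hz hP.hw i n _ _).isOpen.inter ((isOpen_discrete _).preimage (hV n)))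
        ⟨x, hx, hxc⟩
      exact ⟨N, fun _ => hN⟩
    · exact ⟨0, fun h => absurd h hc⟩
  choose N hN using h1
  let N' : ℕ := max (M + i + 1) (Finset.univ.sup fun p : (Fin i → Bool) × (Fin n → Bool) × Bool =>
    N p.1 p.2.1 p.2.2)
  have hN' : ∀ a b c, N a b c ≤ N' := fun a b c =>
    le_trans (Finset.le_sup (f := fun p : (Fin i → Bool) × (Fin n → Bool) × Bool =>
      N p.1 p.2.1 p.2.2) (Finset.mem_univ (a, b, c))) (le_max_right _ _)
  have hN1 : M + i + 1 ≤ N' := le_max_left _ _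
  have h2 : ∀ a b, Ok2 A (V n) (atom z w i n a b) (M + i) N' := by
    intro a b
    refine ⟨h a b, fun c hc => ?_⟩
    rw [← atom_ext] at hc ⊢
    exact (hN _ _ c hc).mono subset_rfl (hN' _ _ _)
  -- the `z` steps
  have h3 : ∀ k, M + i + k ≤ N' → ∃ z', Pre A M V z' w (i + k) n ∧ (∀ l < i, z' l = z l) ∧
      ∀ a b, Ok2 A (V n) (atom z' w (i + k) n a b) (M + (i + k)) N' := by
    intro k
    induction k with
    | zero => exact fun _ => ⟨z, hP, fun _ _ => rfl, h2⟩
    | succ k ih =>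
      intro hk
      obtain ⟨z1, e1, e2, e3⟩ := ih (by omega)
      obtain ⟨z2, e4, e5, e6⟩ := zstep hA hV e1 (by omega) e3
      refine ⟨z2, e4, fun l hl => ?_, e6⟩
      rw [e5 l (by omega), e2 l hl]
  obtain ⟨z1, e1, e2, e3⟩ := h3 (N' - (M + i)) (by omega)
  obtain ⟨w1, e4, e5, e6⟩ := wstep hV e1 (by omega) e3
  exact ⟨i + (N' - (M + i)), z1, w1, by omega, e4, e2, e5, e6⟩

/-- The splitting theorem. -/
theorem splitting {A : ℕ → Set X} (hA : ∀ n, IsClopen (A n))
    (hdense : ∀ O : Set X, IsOpen O → O.Nonempty → ∃ N, Ok A O N) [Nonempty X]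
    {V : ℕ → X → Bool} (hV : ∀ n, Continuous (V n))
    (hsep : ∀ x y, (∀ n, V n x = V n y) → x = y) :
    ∃ M0, ∀ M, M0 ≤ M → ∃ h : X ≃ₜ (ℕ → Bool) × (ℕ → Bool),
      ∀ x i, (h x).1 i = true → x ∉ A (M + i) := by
  classical
  obtain ⟨M0, hM0⟩ := hdense Set.univ isOpen_univ Set.univ_nonempty
  refine ⟨M0, fun M hM => ?_⟩
  let St := {s : ℕ × ℕ × (ℕ → X → Bool) × (ℕ → X → Bool) //
    Pre A M V s.2.2.1 s.2.2.2 s.2.1 s.1 ∧ s.1 ≤ s.2.1 ∧
      ∀ a b, Ok A (atom s.2.2.1 s.2.2.2 s.2.1 s.1 a b) (M + s.2.1)}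
  have hnext : ∀ s : St, ∃ s' : St, s'.1.1 = s.1.1 + 1 ∧ s.1.2.1 ≤ s'.1.2.1 ∧
      (∀ l < s.1.2.1, s'.1.2.2.1 l = s.1.2.2.1 l) ∧ (∀ l < s.1.1, s'.1.2.2.2 l = s.1.2.2.2 l) := by
    rintro ⟨⟨n, i, z, w⟩, hP, hni, hok⟩
    obtain ⟨i', z', w', h1, h2, h3, h4, h5⟩ := stage hA hdense hV hP hok
    have h1' : n + 1 ≤ i' := Nat.le_trans (Nat.succ_le_succ hni) h1
    have h1'' : i ≤ i' := Nat.le_trans (Nat.le_succ i) h1
    exact ⟨⟨⟨n + 1, i', z', w'⟩, h2, h1', h5⟩, rfl, h1'', h3, h4⟩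
  choose nx hnx1 hnx2 hnx3 hnx4 using hnext
  let s0 : St := ⟨⟨0, 0, fun _ _ => false, fun _ _ => false⟩,
    ⟨fun _ => continuous_const, fun _ => continuous_const,
      fun l hl => absurd hl (Nat.not_lt_zero _), fun l hl => absurd hl (Nat.not_lt_zero _)⟩,
      le_rfl, fun a b => by
        refine hM0.mono (fun x _ => ⟨fun l hl => ?_, fun l hl => ?_⟩) (by simpa using hM)
        · exact absurd hl (Nat.not_lt_zero _)
        · exact absurd hl (Nat.not_lt_zero _)⟩
  let s : ℕ → St := fun n => Nat.rec s0 (fun _ t => nx t) n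
  have hs1 : ∀ n, (s n).1.1 = n := by
    intro n
    induction n with
    | zero => rfl
    | succ n ih =>
      have : (s (n + 1)).1.1 = (s n).1.1 + 1 := hnx1 (s n)
      rw [this, ih]
  have hsi : ∀ n, n ≤ (s n).1.2.1 := fun n => by
    have := (s n).2.2.1
    rwa [hs1] at this
  have hmono : ∀ n m, n ≤ m → (s n).1.2.1 ≤ (s m).1.2.1 := by
    intro n m h
    induction h with
    | refl => exact le_rfl
    | @step m _ ih => exact ih.trans (hnx2 (s m))
  have hz : ∀ n m, n ≤ m → ∀ l < (s n).1.2.1, (s m).1.2.2.1 l = (s n).1.2.2.1 l := by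
    intro n m h
    induction h with
    | refl => exact fun _ _ => rfl
    | @step m hm ih =>
      intro l hl
      have h1 : (s (m + 1)).1.2.2.1 l = (s m).1.2.2.1 l :=
        hnx3 (s m) l (lt_of_lt_of_le hl (hmono n m hm))
      rw [h1, ih l hl]
  have hw : ∀ n m, n ≤ m → ∀ l < n, (s m).1.2.2.2 l = (s n).1.2.2.2 l := by
    intro n m h
    induction h with
    | refl => exact fun _ _ => rfl
    | @step m hm ih =>
      intro l hl
      have hm' : n ≤ m := hm
      have h1 : (s (m + 1)).1.2.2.2 l = (s m).1.2.2.2 l :=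
        hnx4 (s m) l (by rw [hs1]; omega)
      rw [h1, ih l hl]
  let Z : ℕ → X → Bool := fun l => (s (l + 1)).1.2.2.1 l
  let W : ℕ → X → Bool := fun l => (s (l + 1)).1.2.2.2 l
  have hZ : ∀ n, ∀ l < (s n).1.2.1, (s n).1.2.2.1 l = Z l := by
    intro n l hl
    have hl' : l < (s (l + 1)).1.2.1 := lt_of_lt_of_le (Nat.lt_succ_self l) (hsi (l + 1))
    have h1 := hz n (max n (l + 1)) (le_max_left _ _) l hl
    have h2 := hz (l + 1) (max n (l + 1)) (le_max_right _ _) l hl'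
    show _ = (s (l + 1)).1.2.2.1 l
    rw [← h1, ← h2]
  have hW : ∀ n, ∀ l < n, (s n).1.2.2.2 l = W l := by
    intro n l hl
    exact hw (l + 1) n hl l (Nat.lt_succ_self l)
  have hZc : ∀ l, Continuous (Z l) := fun l => (s (l + 1)).2.1.hz l
  have hWc : ∀ l, Continuous (W l) := fun l => (s (l + 1)).2.1.hw l
  let φ : X → (ℕ → Bool) × (ℕ → Bool) := fun x => (fun l => Z l x, fun l => W l x)
  have hφ : Continuous φ := (continuous_pi hZc).prodMk (continuous_pi hWc)
  have hinj : Function.Injective φ := by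
    intro x y hxy
    have h1 : ∀ l, Z l x = Z l y := fun l => congrFun (congrArg Prod.fst hxy) l
    have h2 : ∀ l, W l x = W l y := fun l => congrFun (congrArg Prod.snd hxy) l
    apply hsep
    intro l
    have h0 : l < (s (l + 1)).1.1 := by
      have := hs1 (l + 1)
      omega
    have h3 := (s (l + 1)).2.1.dec l h0 x y
    apply h3
    · intro k hk
      rw [hZ (l + 1) k hk]
      exact h1 k
    · intro k hk
      have hk' : k < l + 1 := by
        have := hs1 (l + 1)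
        omega
      rw [hW (l + 1) k hk']
      exact h2 k
  have hsurj : Function.Surjective φ := by
    rintro ⟨a, b⟩
    let K : ℕ → Set X := fun n => {x | (∀ l < (s n).1.2.1, Z l x = a l) ∧ ∀ l < n, W l x = b l}
    have hKeq : ∀ n, K n = atom (s n).1.2.2.1 (s n).1.2.2.2 (s n).1.2.1 (s n).1.1 a b := by
      intro n
      ext x
      constructor
      · rintro ⟨h1, h2⟩
        refine ⟨fun l hl => ?_, fun l hl => ?_⟩
        · rw [hZ n l hl]; exact h1 l hl
        · rw [hs1] at hl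
          rw [hW n l hl]; exact h2 l hl
      · rintro ⟨h1, h2⟩
        refine ⟨fun l hl => ?_, fun l hl => ?_⟩
        · rw [← hZ n l hl]; exact h1 l hl
        · rw [← hW n l hl]; exact h2 l (by rw [hs1]; exact hl)
    have hKcl : ∀ n, IsClosed (K n) := by
      intro n
      rw [hKeq]
      exact (atom_clopen (s n).2.1.hz (s n).2.1.hw _ _ _ _).isClosed
    have hKne : ∀ n, (K n).Nonempty := by
      intro n
      rw [hKeq]
      obtain ⟨C, hC1, hC2, -⟩ := (s n).2.2.2 a b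
      exact hC2.mono hC1
    have hKnest : ∀ n, K (n + 1) ⊆ K n := by
      rintro n x ⟨h1, h2⟩
      exact ⟨fun l hl => h1 l (lt_of_lt_of_le hl (hmono n (n + 1) (Nat.le_succ n))),
        fun l hl => h2 l (by omega)⟩
    obtain ⟨x, hx⟩ := IsCompact.nonempty_iInter_of_sequence_nonempty_isCompact_isClosed K hKnest
      hKne (hKcl 0).isCompact hKcl
    rw [Set.mem_iInter] at hx
    refine ⟨x, Prod.ext (funext fun l => ?_) (funext fun l => ?_)⟩
    · exact (hx (l + 1)).1 l (lt_of_lt_of_le (Nat.lt_succ_self l) (hsi (l + 1)))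
    · exact (hx (l + 1)).2 l (Nat.lt_succ_self l)
  refine ⟨hφ.homeoOfEquivCompactToT2 (f := Equiv.ofBijective φ ⟨hinj, hsurj⟩), ?_⟩
  intro x i hi
  have h1 : Z i x = true := hi
  exact (s (i + 1)).2.1.avoid i (lt_of_lt_of_le (Nat.lt_succ_self i) (hsi (i + 1))) x h1

end Pool.Agent.W19.NR
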