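import Mathlib
import Pool.Agent.W19.NR.Split
import Pool.Agent.W19.NR.Lev

set_option autoImplicit false

/-! Families of eventually equal points near two given points of the subshift. -/

namespace Pool.Agent.W19.NR

open Filter Topology Pool.Agent.H317R3

/-- the letter at `x` of the word `v` placed at `a` -/
def val (a : ℤ) (v : List AA) (x : ℤ) : AA := (v[(x - a).toNat]?).getD default

lemma val_append {a x : ℤ} {u w v : List AA} (h1 : a + u.length ≤ x)
    (h2 : x < a + u.length + w.length) : val a (u ++ (w ++ v)) x = val (a + u.length) w x := by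
  unfold val
  rw [List.getElem?_append_right (by omega), List.getElem?_append_left (by omega)]
  congr 2
  omega

lemma exists_limit (V : ℕ → List AA) (a : ℕ → ℤ)
    (hnest : ∀ t, ∃ u v : List AA, V (t + 1) = u ++ (V t ++ v) ∧ a (t + 1) + u.length = a t)
    (hL : ∀ t : ℕ, a t ≤ -(t : ℤ)) (hR : ∀ t : ℕ, (t : ℤ) < a t + (V t).length) :
    ∃ y : ℤ → AA, ∀ t, Occ y (a t) (V t) := by
  have hstep : ∀ t (x : ℤ), a t ≤ x → x < a t + (V t).length →
      val (a (t + 1)) (V (t + 1)) x = val (a t) (V t) x ∧ a (t + 1) ≤ x ∧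
        x < a (t + 1) + (V (t + 1)).length := by
    intro t x h1 h2
    obtain ⟨u, v, h3, h4⟩ := hnest t
    refine ⟨?_, by omega, ?_⟩
    · rw [h3, val_append (by omega) (by omega), h4]
    · rw [h3, List.length_append, List.length_append]
      push_cast
      omega
  have hmono : ∀ t s, t ≤ s → ∀ x : ℤ, a t ≤ x → x < a t + (V t).length →
      val (a s) (V s) x = val (a t) (V t) x ∧ a s ≤ x ∧ x < a s + (V s).length := by
    intro t s h
    induction h with
    | refl => exact fun x h1 h2 => ⟨rfl, h1, h2⟩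
    | @step s _ ih =>
      intro x h1 h2
      obtain ⟨e1, e2, e3⟩ := ih x h1 h2
      obtain ⟨e4, e5, e6⟩ := hstep s x e2 e3
      exact ⟨by rw [e4, e1], e5, e6⟩
  let y : ℤ → AA := fun x => val (a x.natAbs) (V x.natAbs) x
  have hy : ∀ t (x : ℤ), a t ≤ x → x < a t + (V t).length → y x = val (a t) (V t) x := by
    intro t x h1 h2
    rcases le_total t x.natAbs with h | h
    · exact (hmono t _ h x h1 h2).1
    · refine ((hmono x.natAbs t h x ?_ ?_).1).symm
      · have := hL x.natAbs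
        omega
      · have := hR x.natAbs
        omega
  refine ⟨y, fun t => ?_⟩
  have := eq_word (y := y) (a := a t) (v := V t) (by
    intro i hi
    rw [hy t (a t + i) (by omega) (by omega)]
    have h1 : (a t + (i : ℤ) - a t).toNat = i := by omega
    show _ = some (((V t)[(a t + (i : ℤ) - a t).toNat]?).getD default)
    rw [h1, List.getElem?_eq_getElem hi]
    rfl)
  exact this.symm

lemma occ_eq {y z : ℤ → AA} {a : ℤ} {v : List AA} (hy : Occ y a v) (hz : Occ z a v) {x : ℤ}
    (h1 : a ≤ x) (h2 : x < a + v.length) : y x = z x := by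
  have e1 := occ_get hy (i := (x - a).toNat) (by omega)
  have e2 := occ_get hz (i := (x - a).toNat) (by omega)
  rw [e1] at e2
  have e3 := Option.some.inj e2
  have e4 : a + ((x - a).toNat : ℤ) = x := by omega
  rwa [e4] at e3

/-- the words of the stages -/
def VV (P : ℕ → Lv) (k : ℕ) (r : ℕ → List AA) (l : ℕ → Bool → List AA) (V0 : List AA)
    (c : ℕ → Bool) : ℕ → List AA
  | 0 => V0
  | t + 1 => (P (k + 1 + t)).U ++ (l t (c t) ++ (VV P k r l V0 c t ++ r t))

lemma VV_congr {P : ℕ → Lv} {k : ℕ} {r : ℕ → List AA} {l : ℕ → Bool → List AA} {V0 : List AA}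
    {c c' : ℕ → Bool} (t : ℕ) (h : ∀ s < t, c s = c' s) :
    VV P k r l V0 c t = VV P k r l V0 c' t := by
  induction t with
  | zero => rfl
  | succ t ih =>
    show (P (k + 1 + t)).U ++ (l t (c t) ++ (VV P k r l V0 c t ++ r t)) =
      (P (k + 1 + t)).U ++ (l t (c' t) ++ (VV P k r l V0 c' t ++ r t))
    rw [h t (Nat.lt_succ_self t), ih fun s hs => h s (by omega)]

/-- the fillers of the stages -/
structure Frame (P : ℕ → Lv) (k : ℕ) (r : ℕ → List AA) (l : ℕ → Bool → List AA) : Prop where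
  r_mem : ∀ t, r t ∈ H317R3.Star (P (k + 1 + t)).W
  r_pos : ∀ t, 1 ≤ (r t).length
  l_mem : ∀ t b, l t b ∈ H317R3.Star (P (k + 1 + t)).W
  l_pos : ∀ t b, 1 ≤ (l t b).length
  l_len : ∀ t b, (l t b).length + ((P (k + t)).U.length + (P (k + t)).N) + (r t).length =
    (P (k + 1 + t)).N
  l_ne : ∀ t, l t true ≠ l t false

section seq

variable {P : ℕ → Lv} (hG : ∀ j, Gd j (P j)) (hN : ∀ j, Nx (P j) (P (j + 1)))

include hG hN

lemma exists_frame (k : ℕ) : ∃ r l, Frame P k r l := by
  have h1 : ∀ t, ∃ (r l0 l1 : List AA), r ∈ H317R3.Star (P (k + 1 + t)).W ∧ 1 ≤ r.length ∧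
      l0 ∈ H317R3.Star (P (k + 1 + t)).W ∧ l1 ∈ H317R3.Star (P (k + 1 + t)).W ∧
      1 ≤ l0.length ∧ l0.length = l1.length ∧
      l0.length + ((P (k + t)).U.length + (P (k + t)).N) + r.length = (P (k + 1 + t)).N ∧
      l0 ≠ l1 := by
    intro t
    have hg := hG (k + 1 + t)
    have hNge := hg.N_ge
    have hB : (P (k + 1 + t)).B = (P (k + t)).U.length + (P (k + t)).N + 1 := by
      have := (hN (k + t)).B
      rwa [show k + t + 1 = k + 1 + t by ring] at this
    obtain ⟨r, hr, hrl⟩ := hg.base.fill ((P (k + 1 + t)).H + 1) (by omega)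
    obtain ⟨d0, hd0, d1, hd1, hne, hlen⟩ := hg.base.two
    have hb := hg.base.bd d0 hd0
    obtain ⟨f, hf, hfl⟩ := hg.base.fill ((P (k + 1 + t)).N - ((P (k + t)).U.length +
      (P (k + t)).N) - ((P (k + 1 + t)).H + 1) - d0.length) (by omega)
    refine ⟨r, d0 ++ f, d1 ++ f, hr, by omega, star_append (star_of_mem hd0) hf,
      star_append (star_of_mem hd1) hf, ?_, ?_, ?_, ?_⟩
    · rw [List.length_append]; omega
    · simp [hlen]
    · rw [List.length_append]; omega
    · intro h
      exact hne (List.append_cancel_right h)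
  choose r l0 l1 e1 e2 e3 e4 e5 e6 e7 e8 using h1
  refine ⟨r, fun t b => if b then l1 t else l0 t, e1, e2, ?_, ?_, ?_, ?_⟩
  · intro t b
    cases b
    · exact e3 t
    · exact e4 t
  · intro t b
    cases b
    · exact e5 t
    · have := e5 t; have h6 := e6 t
      show 1 ≤ (l1 t).length
      omega
  · intro t b
    cases b
    · exact e7 t
    · have := e7 t; have h6 := e6 t
      show (l1 t).length + _ + _ = _
      omega
  · intro t h
    exact e8 t h.symm

variable {k : ℕ} {r : ℕ → List AA} {l : ℕ → Bool → List AA} (hF : Frame P k r l)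

include hF

omit hG in
lemma VV_mem {V0 : List AA} (hV0 : V0 ∈ (P (k + 1)).W)
    (hl0 : V0.length = (P k).U.length + (P k).N) (c : ℕ → Bool) (t : ℕ) :
    VV P k r l V0 c t ∈ (P (k + 1 + t)).W ∧
      (VV P k r l V0 c t).length = (P (k + t)).U.length + (P (k + t)).N := by
  induction t with
  | zero => exact ⟨hV0, hl0⟩
  | succ t ih =>
    obtain ⟨h1, h2⟩ := ih
    have hl := hF.l_len t (c t)
    have e1 : k + 1 + (t + 1) = k + 1 + t + 1 := by ring
    have e2 : k + (t + 1) = k + 1 + t := by ring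
    have h3 : (l t (c t) ++ (VV P k r l V0 c t ++ r t)).length = (P (k + 1 + t)).N := by
      rw [List.length_append, List.length_append, h2]
      omega
    constructor
    · rw [e1, (hN (k + 1 + t)).W]
      exact ⟨l t (c t) ++ (VV P k r l V0 c t ++ r t),
        star_append (hF.l_mem t _) (star_append (star_of_mem h1) (hF.r_mem t)), rfl, Or.inl h3⟩
    · rw [e2]
      show ((P (k + 1 + t)).U ++ (l t (c t) ++ (VV P k r l V0 c t ++ r t))).length = _
      rw [List.length_append, h3]

/-- the right end of the stage `t` -/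
def EE (r : ℕ → List AA) (E0 : ℕ) (t : ℕ) : ℕ := E0 + (Finset.range t).sum fun s => (r s).length

omit hG hN hF in
lemma EE_succ (r : ℕ → List AA) (E0 t : ℕ) : EE r E0 (t + 1) = EE r E0 t + (r t).length := by
  unfold EE
  rw [Finset.sum_range_succ, add_assoc]

omit hG hN in
lemma EE_ge (E0 t : ℕ) : E0 + t ≤ EE r E0 t := by
  induction t with
  | zero => simp [EE]
  | succ t ih =>
    rw [EE_succ]
    have := hF.r_pos t
    omega

omit hG hN in
lemma h_ge {E0 : ℕ} (hE : E0 ≤ (P k).U.length + (P k).N) (t : ℕ) :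
    EE r E0 t + t ≤ (P (k + t)).U.length + (P (k + t)).N := by
  induction t with
  | zero => simpa [EE] using hE
  | succ t ih =>
    rw [EE_succ]
    have h1 := hF.l_len t true
    have h2 := hF.l_pos t true
    have e2 : k + (t + 1) = k + 1 + t := by ring
    rw [e2]
    omega

/-- the left end of the stage `t` -/
def ll (P : ℕ → Lv) (k : ℕ) (r : ℕ → List AA) (E0 : ℕ) (t : ℕ) : ℤ :=
  (EE r E0 t : ℤ) - ((P (k + t)).U.length + (P (k + t)).N)

omit hG in
lemma point {V0 : List AA} (hV0 : V0 ∈ (P (k + 1)).W)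
    (hl0 : V0.length = (P k).U.length + (P k).N) {E0 : ℕ} (hE0 : 1 ≤ E0)
    (hE : E0 ≤ (P k).U.length + (P k).N) (c : ℕ → Bool) :
    ∃ y ∈ Y (PP P), ∀ t, Occ y (ll P k r E0 t) (VV P k r l V0 c t) := by
  have hm := VV_mem hN hF hV0 hl0 c
  have hend : ∀ t, ll P k r E0 t + (VV P k r l V0 c t).length = EE r E0 t := by
    intro t
    rw [(hm t).2]
    unfold ll
    push_cast
    ring
  have hL : ∀ t : ℕ, ll P k r E0 t ≤ -(t : ℤ) := by
    intro t
    have := h_ge hF hE t
    unfold ll
    omega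
  have hR : ∀ t : ℕ, (t : ℤ) < ll P k r E0 t + (VV P k r l V0 c t).length := by
    intro t
    rw [hend]
    have := EE_ge hF E0 t
    omega
  obtain ⟨y, hy⟩ := exists_limit (VV P k r l V0 c) (ll P k r E0) (by
    intro t
    refine ⟨(P (k + 1 + t)).U ++ l t (c t), r t, ?_, ?_⟩
    · show (P (k + 1 + t)).U ++ (l t (c t) ++ (VV P k r l V0 c t ++ r t)) = _
      simp
    · have h1 := hF.l_len t (c t)
      have e2 : k + (t + 1) = k + 1 + t := by ring
      unfold ll
      rw [e2, EE_succ, List.length_append]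
      push_cast
      omega) hL hR
  refine ⟨y, fun a n => ⟨k + 1 + (a.natAbs + n), VV P k r l V0 c (a.natAbs + n), (hm _).1, ?_⟩, hy⟩
  have h1 := hy (a.natAbs + n)
  rw [← h1]
  apply word_infix
  · have := hL (a.natAbs + n)
    omega
  · have := hR (a.natAbs + n)
    omega

end seq

/-- the first stage: the window of `y` in a word of the next level -/
lemma base_word {P : ℕ → Lv} (hG : ∀ j, Gd j (P j)) (hN : ∀ j, Nx (P j) (P (j + 1)))
    {y : ℤ → AA} (hy : y ∈ Y (PP P)) (k : ℕ) :
    ∃ V0 ∈ (P (k + 1)).W, V0.length = (P k).U.length + (P k).N ∧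
      ∃ u v : List AA, V0 = u ++ (word y (-(k : ℤ)) (2 * k + 1) ++ v) ∧
        ((k + 1 + (P k).B + (P k).H : ℕ) : ℤ) - ((P k).U.length + (P k).N) + u.length =
          -(k : ℤ) := by
  obtain ⟨z, hz, hyz⟩ := lang_in_star hG hN (hy (-(k : ℤ)) (2 * k + 1)) k
  obtain ⟨s1, s2, hs, h1, h2⟩ := trim (hG k).base.bd hz hyz
  have hNk := (hG k).N_ge
  obtain ⟨r', hr', hrl⟩ := (hG k).base.fill ((P k).B + (P k).H - s2.length) (by omega)
  obtain ⟨l', hl', hll⟩ := (hG k).base.fill ((P k).N - (s1.length + (2 * k + 1) + s2.length) -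
    ((P k).B + (P k).H - s2.length)) (by omega)
  have hlen : (l' ++ (s1 ++ word y (-(k : ℤ)) (2 * k + 1) ++ s2) ++ r').length = (P k).N := by
    simp only [List.length_append, word_length]
    omega
  refine ⟨(P k).U ++ (l' ++ (s1 ++ word y (-(k : ℤ)) (2 * k + 1) ++ s2) ++ r'), ?_, ?_,
    (P k).U ++ (l' ++ s1), s2 ++ r', ?_, ?_⟩
  · rw [(hN k).W]
    exact ⟨_, star_append (star_append hl' hs) hr', rfl, Or.inl hlen⟩
  · rw [List.length_append, hlen]
  · simp
  · simp only [List.length_append]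
    push_cast
    omega

/-- families of eventually equal pairs near a given pair -/
theorem family {P : ℕ → Lv} (hG : ∀ j, Gd j (P j)) (hN : ∀ j, Nx (P j) (P (j + 1)))
    {y z : ℤ → AA} (hy : y ∈ Y (PP P)) (hz : z ∈ Y (PP P)) (k : ℕ) :
    ∃ (E0 : ℕ) (C : Set (Y (PP P) × Y (PP P))), C.Nonempty ∧ NI C ∧ ∀ p ∈ C,
      (∀ x : ℤ, |x| ≤ k → p.1.1 x = y x ∧ p.2.1 x = z x) ∧
      ∀ x : ℤ, (E0 : ℤ) ≤ x → p.1.1 x = p.2.1 x := by
  classical
  obtain ⟨Vy, hVy, hVyl, uy, vy, hVy1, hVy2⟩ := base_word hG hN hy k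
  obtain ⟨Vz, hVz, hVzl, uz, vz, hVz1, hVz2⟩ := base_word hG hN hz k
  obtain ⟨r, l, hF⟩ := exists_frame hG hN k
  set E0 : ℕ := k + 1 + (P k).B + (P k).H with hE0
  have hE1 : 1 ≤ E0 := by omega
  have hNk := (hG k).N_ge
  have hE2 : E0 ≤ (P k).U.length + (P k).N := by omega
  have hpt := fun {V0 : List AA} (hV0 : V0 ∈ (P (k + 1)).W)
    (hl0 : V0.length = (P k).U.length + (P k).N) (c : ℕ → Bool) =>
    point hN hF hV0 hl0 hE1 hE2 c
  obtain ⟨z', hz', hz'occ⟩ := hpt hVz hVzl (fun _ => true)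
  have hlen := fun {V0 : List AA} (hV0 : V0 ∈ (P (k + 1)).W)
    (hl0 : V0.length = (P k).U.length + (P k).N) (c : ℕ → Bool) =>
    VV_mem hN hF hV0 hl0 c
  have hwin : ∀ {V0 : List AA} {y y' : ℤ → AA} {u v : List AA} {c : ℕ → Bool},
      V0 = u ++ (word y (-(k : ℤ)) (2 * k + 1) ++ v) →
      (E0 : ℤ) - ((P k).U.length + (P k).N) + u.length = -(k : ℤ) →
      Occ y' (ll P k r E0 0) (VV P k r l V0 c 0) → ∀ x : ℤ, |x| ≤ k → y' x = y x := by
    intro V0 y y' u v c h1 h2 h3 x hx
    have h4 : Occ y' (ll P k r E0 0) (u ++ (word y (-(k : ℤ)) (2 * k + 1) ++ v)) := by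
      rw [← h1]; exact h3
    rw [occ_append, occ_append] at h4
    have h5 : ll P k r E0 0 + u.length = -(k : ℤ) := by
      unfold ll
      rw [add_zero]
      have : EE r E0 0 = E0 := by simp [EE]
      rw [this]
      exact h2
    have hx' := abs_le.1 hx
    have h6 := occ_word (h5 ▸ h4.2.1) (i := (x + k).toNat) (by omega)
    have h7 : -(k : ℤ) + ((x + k).toNat : ℤ) = x := by omega
    rwa [h7] at h6
  have hright : ∀ {V0 : List AA} {y' : ℤ → AA} {c : ℕ → Bool}, V0 ∈ (P (k + 1)).W →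
      V0.length = (P k).U.length + (P k).N →
      (∀ t, Occ y' (ll P k r E0 t) (VV P k r l V0 c t)) → ∀ t, Occ y' (EE r E0 t) (r t) := by
    intro V0 y' c hV0 hl0 h t
    have h1 : Occ y' (ll P k r E0 (t + 1))
      ((P (k + 1 + t)).U ++ (l t (c t) ++ (VV P k r l V0 c t ++ r t))) := h (t + 1)
    rw [occ_append, occ_append, occ_append] at h1
    have h2 := h1.2.2.2
    have h3 := (hlen hV0 hl0 c t).2
    have h4 := hF.l_len t (c t)
    have h5 : ll P k r E0 (t + 1) + ((P (k + 1 + t)).U.length : ℤ) + ((l t (c t)).length : ℤ) +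
        ((VV P k r l V0 c t).length : ℤ) = EE r E0 t := by
      rw [h3]
      unfold ll
      rw [EE_succ, show k + (t + 1) = k + 1 + t by ring]
      push_cast
      omega
    rwa [h5] at h2
  let C : Set (Y (PP P) × Y (PP P)) := {p | p.2 = ⟨z', hz'⟩ ∧
    ∃ c, ∀ t, Occ p.1.1 (ll P k r E0 t) (VV P k r l Vy c t)}
  refine ⟨E0, C, ?_, ?_, ?_⟩
  · obtain ⟨y', hy', hy'occ⟩ := hpt hVy hVyl (fun _ => true)
    exact ⟨(⟨y', hy'⟩, ⟨z', hz'⟩), rfl, fun _ => true, hy'occ⟩
  · rintro ⟨p1, p2⟩ ⟨hp2, c, hc⟩ O hO hpO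
    have hp2' : p2 = ⟨z', hz'⟩ := hp2
    -- a window of the first coordinate
    have hO1 : IsOpen {w : Y (PP P) | (w, p2) ∈ O} :=
      hO.preimage (by fun_prop : Continuous fun w : Y (PP P) => (w, p2))
    obtain ⟨O', hO', hO'eq⟩ := isOpen_induced_iff.1 hO1
    have hp1O : p1.1 ∈ O' := by
      have h1 : p1 ∈ {w : Y (PP P) | (w, p2) ∈ O} := hpO
      rw [← hO'eq] at h1
      exact h1
    obtain ⟨m, hm⟩ := window_basis hO' hp1O
    let c' : ℕ → Bool := Function.update c (m + 1) (!c (m + 1))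
    have hcc : ∀ s < m + 1, c s = c' s := fun s hs => by
      show c s = Function.update c (m + 1) (!c (m + 1)) s
      rw [Function.update_of_ne (by omega)]
    obtain ⟨y', hy', hy'occ⟩ := hpt hVy hVyl c'
    have h1 : Occ y' (ll P k r E0 (m + 1)) (VV P k r l Vy c (m + 1)) := by
      rw [VV_congr (m + 1) hcc]
      exact hy'occ (m + 1)
    refine ⟨(⟨y', hy'⟩, p2), ⟨hp2, c', hy'occ⟩, ?_, ?_⟩
    · have h2 : (⟨y', hy'⟩ : Y (PP P)) ∈ {w : Y (PP P) | (w, p2) ∈ O} := by
        rw [← hO'eq]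
        apply hm
        intro x hx
        have hx' := abs_le.1 hx
        apply occ_eq h1 (hc (m + 1))
        · have := h_ge hF hE2 (m + 1)
          unfold ll
          omega
        · rw [(hlen hVy hVyl c (m + 1)).2]
          have := EE_ge hF E0 (m + 1)
          unfold ll
          push_cast
          omega
      exact h2
    · intro heq
      have h2 : y' = p1.1 := congrArg Subtype.val (congrArg Prod.fst heq)
      have h3 := hy'occ (m + 1 + 1)
      have h4 := hc (m + 1 + 1)
      rw [h2] at h3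
      unfold Occ at h3 h4
      rw [(hlen hVy hVyl c' (m + 1 + 1)).2] at h3
      rw [(hlen hVy hVyl c (m + 1 + 1)).2, h3] at h4
      have h5 : (P (k + 1 + (m + 1))).U ++ (l (m + 1) (c' (m + 1)) ++
          (VV P k r l Vy c' (m + 1) ++ r (m + 1))) = (P (k + 1 + (m + 1))).U ++
          (l (m + 1) (c (m + 1)) ++ (VV P k r l Vy c (m + 1) ++ r (m + 1))) := h4
      have h6 := List.append_cancel_left h5
      rw [VV_congr (m + 1) hcc] at h6
      have h7 := List.append_cancel_right h6
      have h8 : c' (m + 1) = !c (m + 1) := Function.update_self _ _ _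
      rw [h8] at h7
      have h9 := hF.l_ne (m + 1)
      rcases hcm : c (m + 1) with _ | _
      · rw [hcm] at h7
        exact h9 h7
      · rw [hcm] at h7
        exact h9 h7.symm
  · rintro ⟨p1, p2⟩ ⟨hp2, c, hc⟩
    have hp2' : p2 = ⟨z', hz'⟩ := hp2
    subst hp2'
    refine ⟨fun x hx => ⟨hwin hVy1 hVy2 (hc 0) x hx, hwin hVz1 hVz2 (hz'occ 0) x hx⟩, ?_⟩
    have hr1 := hright hVy hVyl hc
    have hr2 := hright hVz hVzl hz'occ
    have key : ∀ t (x : ℤ), (E0 : ℤ) ≤ x → x < EE r E0 t → p1.1 x = z' x := by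
      intro t
      induction t with
      | zero =>
        intro x h1 h2
        have : EE r E0 0 = E0 := by simp [EE]
        omega
      | succ t ih =>
        intro x h1 h2
        by_cases h3 : x < EE r E0 t
        · exact ih x h1 h3
        · apply occ_eq (hr1 t) (hr2 t) (by omega)
          rw [EE_succ] at h2
          push_cast at h2
          exact h2
    intro x hx
    apply key (x.toNat + 1) x hx
    have := EE_ge hF E0 (x.toNat + 1)
    omega

end Pool.Agent.W19.NR
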