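import Mathlib
import Pool.Agent.W19.NR.Fam

set_option autoImplicit false

/-! The product system `(σ² × σ, Y × Y)`: minimality and nonrecurrent points. -/

namespace Pool.Agent.W19.NR

open Filter Topology Pool.Agent.H317R3

/-- the space -/
abbrev XY (P : ℕ → Lv) : Type := Y (PP P) × Y (PP P)

/-- the homeomorphism: the square of the shift times the shift -/
def TT (P : ℕ → Lv) : XY P ≃ₜ XY P :=
  ((shiftY (PP P)).trans (shiftY (PP P))).prodCongr (shiftY (PP P))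

lemma TT_apply (P : ℕ → Lv) (p : XY P) (x : ℤ) :
    (TT P p).1.1 x = p.1.1 (x + 2) ∧ (TT P p).2.1 x = p.2.1 (x + 1) := by
  refine ⟨?_, rfl⟩
  show p.1.1 (x + 1 + 1) = _
  rw [show x + 1 + 1 = x + 2 by ring]

lemma TT_symm_apply (P : ℕ → Lv) (p : XY P) (x : ℤ) :
    ((TT P).symm p).1.1 x = p.1.1 (x + -2) ∧ ((TT P).symm p).2.1 x = p.2.1 (x + -1) := by
  refine ⟨?_, rfl⟩
  show p.1.1 (x + -1 + -1) = _
  rw [show x + -1 + -1 = x + -2 by ring]

lemma TT_zpow (P : ℕ → Lv) (n : ℤ) : ∀ (p : XY P) (x : ℤ),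
    ((TT P ^ n) p).1.1 x = p.1.1 (x + 2 * n) ∧ ((TT P ^ n) p).2.1 x = p.2.1 (x + n) := by
  induction n using Int.induction_on with
  | zero => intro p x; simp
  | succ n ih =>
    intro p x
    rw [zpow_add_one]
    have h1 := ih (TT P p) x
    show ((TT P ^ (n : ℤ)) (TT P p)).1.1 x = _ ∧ ((TT P ^ (n : ℤ)) (TT P p)).2.1 x = _
    rw [h1.1, h1.2, (TT_apply P p _).1, (TT_apply P p _).2]
    constructor <;> ring_nf
  | pred n ih =>
    intro p x
    rw [zpow_sub_one]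
    have h1 := ih ((TT P).symm p) x
    show ((TT P ^ (-(n : ℤ))) ((TT P).symm p)).1.1 x = _ ∧
      ((TT P ^ (-(n : ℤ))) ((TT P).symm p)).2.1 x = _
    rw [h1.1, h1.2, (TT_symm_apply P p _).1, (TT_symm_apply P p _).2]
    constructor <;> ring_nf

/-- every neighbourhood in the product contains a window neighbourhood -/
lemma prod_window {P : ℕ → Lv} {O : Set (XY P)} (hO : IsOpen O) {p : XY P} (hp : p ∈ O) :
    ∃ m : ℕ, ∀ q : XY P, (∀ x : ℤ, |x| ≤ m → q.1.1 x = p.1.1 x ∧ q.2.1 x = p.2.1 x) → q ∈ O := by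
  obtain ⟨u, v, hu, hv, hpu, hpv, huv⟩ := isOpen_prod_iff.1 hO p.1 p.2 hp
  obtain ⟨u', hu', hu'eq⟩ := isOpen_induced_iff.1 hu
  obtain ⟨v', hv', hv'eq⟩ := isOpen_induced_iff.1 hv
  have h1 : p.1.1 ∈ u' := by
    rw [← hu'eq] at hpu
    exact hpu
  have h2 : p.2.1 ∈ v' := by
    rw [← hv'eq] at hpv
    exact hpv
  obtain ⟨m1, hm1⟩ := window_basis hu' h1
  obtain ⟨m2, hm2⟩ := window_basis hv' h2
  refine ⟨max m1 m2, fun q hq => huv ⟨?_, ?_⟩⟩
  · rw [← hu'eq]
    exact hm1 fun x hx => (hq x (hx.trans (by exact_mod_cast le_max_left _ _))).1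
  · rw [← hv'eq]
    exact hm2 fun x hx => (hq x (hx.trans (by exact_mod_cast le_max_right _ _))).2

section seq

variable {P : ℕ → Lv} (hG : ∀ j, Gd j (P j)) (hN : ∀ j, Nx (P j) (P (j + 1)))

include hG hN

/-- `σ² × σ` is minimal on `Y × Y` -/
theorem TT_minimal (p : XY P) : Dense (Set.range fun n : ℤ => (TT P ^ n) p) := by
  intro q
  rw [mem_closure_iff]
  intro O hO hq
  obtain ⟨m, hm⟩ := prod_window hO hq
  obtain ⟨j1, hj1⟩ := lang_in_e hG hN (q.1.2 (-(m : ℤ)) (2 * m + 1))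
  obtain ⟨j2, hj2⟩ := lang_in_e hG hN (q.2.2 (-(m : ℤ)) (2 * m + 1))
  obtain ⟨n, h1, h2⟩ := two_one hG hN p.1.2 p.2.2 (max j1 j2) m
    (hj1 _ (le_max_left _ _)) (hj2 _ (le_max_right _ _))
  refine ⟨(TT P ^ n) p, hm _ fun x hx => ?_, n, rfl⟩
  have hx' := abs_le.1 hx
  have h3 := occ_word h1 (i := (x + m).toNat) (by omega)
  have h4 := occ_word h2 (i := (x + m).toNat) (by omega)
  have e1 : 2 * n - (m : ℤ) + ((x + m).toNat : ℤ) = x + 2 * n := by omega
  have e2 : n - (m : ℤ) + ((x + m).toNat : ℤ) = x + n := by omega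
  have e3 : -(m : ℤ) + ((x + m).toNat : ℤ) = x := by omega
  rw [e1, e3] at h3
  rw [e2, e3] at h4
  rw [(TT_zpow P n p x).1, (TT_zpow P n p x).2]
  exact ⟨h3, h4⟩

/-- no point of `Y` is constant on a long window -/
lemma nonconst (h0 : (P 0).W = {x | ∃ a : AA, x = [a]}) : ∃ m0 : ℕ, ∀ y ∈ Y (PP P),
    ∃ x : ℤ, |x| ≤ m0 ∧ y x ≠ y (x + 1) := by
  refine ⟨(P 1).B + (P 0).U.length, fun y hy => ?_⟩
  obtain ⟨a, ha1, ha2, ha⟩ := occ_U hG hN hy 0 0
  by_contra hcon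
  push Not at hcon
  have hconst : ∀ n : ℕ, n ≤ (P 1).B + (P 0).U.length + 1 → y n = y 0 := by
    intro n
    induction n with
    | zero => intro _; rfl
    | succ n ih =>
      intro hn
      have := hcon n (by rw [abs_of_nonneg (by omega)]; exact_mod_cast (by omega))
      rw [← ih (by omega), this]
      push_cast
      rfl
  have key : ∀ b : AA, y 0 = b := by
    intro b
    have hb : [b] <:+: (P 0).e := (hG 0).e_inf [b] (by rw [h0]; exact ⟨b, rfl⟩)
    obtain ⟨s, t, hst⟩ := hb.trans (e_prefix_U (P 0)).isInfix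
    rw [← hst, List.append_assoc, occ_append, occ_append] at ha
    have h1 := occ_get ha.2.1 (i := 0) (by simp)
    simp only [List.getElem?_cons_zero, Option.some.injEq] at h1
    have h2 : s.length + 1 ≤ (P 0).U.length := by
      have := congrArg List.length hst
      simp only [List.length_append, List.length_singleton] at this
      omega
    have ha2' : a ≤ (P 1).B := by simpa using ha2
    obtain ⟨n, hn⟩ : ∃ n : ℕ, (n : ℤ) = a + s.length := ⟨(a + s.length).toNat, by omega⟩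
    have h3 := hconst n (by omega)
    rw [← h3, h1, hn]
    simp
  have h1 := key (true, true)
  have h2 := key (false, false)
  rw [h1] at h2
  exact absurd h2 (by simp)

end seq

/-- the return sets -/
def AS (P : ℕ → Lv) (m : ℕ) (n : ℕ) : Set (XY P) :=
  {p | ∀ x : ℤ, |x| ≤ m → p.1.1 (x + 2 * n) = p.1.1 x ∧ p.2.1 (x + 2 * n) = p.2.1 x}

lemma AS_clopen (P : ℕ → Lv) (m n : ℕ) : IsClopen (AS P m n) := by
  have h1 : AS P m n = ⋂ x ∈ Set.Icc (-(m : ℤ)) m,
      ({p : XY P | p.1.1 (x + 2 * n) = p.1.1 x} ∩ {p : XY P | p.2.1 (x + 2 * n) = p.2.1 x}) := by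
    ext p
    simp only [AS, Set.mem_iInter, Set.mem_Icc, abs_le]
    rfl
  rw [h1]
  refine (Set.finite_Icc _ _).isClopen_biInter fun x _ => IsClopen.inter ?_ ?_
  · have h2 : Continuous fun p : XY P => (p.1.1 (x + 2 * n), p.1.1 x) :=
      ((continuous_apply _).comp (continuous_subtype_val.comp continuous_fst)).prodMk
        ((continuous_apply _).comp (continuous_subtype_val.comp continuous_fst))
    exact (isClopen_discrete {q : AA × AA | q.1 = q.2}).preimage h2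
  · have h2 : Continuous fun p : XY P => (p.2.1 (x + 2 * n), p.2.1 x) :=
      ((continuous_apply _).comp (continuous_subtype_val.comp continuous_snd)).prodMk
        ((continuous_apply _).comp (continuous_subtype_val.comp continuous_snd))
    exact (isClopen_discrete {q : AA × AA | q.1 = q.2}).preimage h2

lemma NI.preimage {X Z : Type} [TopologicalSpace X] [TopologicalSpace Z] (h : X ≃ₜ Z) {C : Set Z}
    (hC : NI C) : NI (h ⁻¹' C) := by
  intro x hx O hO hxO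
  obtain ⟨y, hy, hyO, hne⟩ := hC (h x) hx (h '' O) (h.isOpenMap O hO) ⟨x, hxO, rfl⟩
  obtain ⟨w, hw, rfl⟩ := hyO
  exact ⟨w, hy, hw, fun e => hne (by rw [e])⟩

/-- near every point there are many points which are not `(n, 2n)`-recurrent, uniformly -/
theorem dense_ok {P : ℕ → Lv} (hG : ∀ j, Gd j (P j)) (hN : ∀ j, Nx (P j) (P (j + 1))) {m0 : ℕ}
    (hm0 : ∀ y ∈ Y (PP P), ∃ x : ℤ, |x| ≤ m0 ∧ y x ≠ y (x + 1)) (O : Set (XY P)) (hO : IsOpen O)
    (hne : O.Nonempty) : ∃ N, Ok (AS P (m0 + 1)) O N := by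
  obtain ⟨p0, hp0⟩ := hne
  obtain ⟨m, hm⟩ := prod_window hO hp0
  -- the shift by `s` which separates the two coordinates
  have hs : ∃ (σ : Y (PP P) ≃ₜ Y (PP P)) (s : ℤ), (0 ≤ s ∧ s ≤ 1) ∧
      (∀ (y : Y (PP P)) (x : ℤ), (σ y).1 x = y.1 (x + s)) ∧
      ∃ x : ℤ, |x| ≤ m0 ∧ p0.1.1 (x + s) ≠ p0.2.1 x := by
    by_cases h : ∃ x : ℤ, |x| ≤ m0 ∧ p0.1.1 (x + 0) ≠ p0.2.1 x
    · exact ⟨Homeomorph.refl _, 0, ⟨le_rfl, zero_le_one⟩, fun y x => by simp, h⟩
    · push Not at h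
      obtain ⟨x, hx, hxne⟩ := hm0 _ p0.1.2
      refine ⟨shiftY (PP P), 1, ⟨zero_le_one, le_rfl⟩, fun y x => rfl, x, hx, ?_⟩
      rw [← h x hx, add_zero]
      exact hxne.symm
  obtain ⟨σ, s, ⟨hs0, hs1⟩, hσ, x0, hx0, hx0ne⟩ := hs
  obtain ⟨E0, C, hCne, hCNI, hC⟩ := family hG hN (σ p0.1).2 p0.2.2 (max m m0 + 1)
  let Φ : XY P ≃ₜ XY P := σ.prodCongr (Homeomorph.refl _)
  have hΦ : ∀ p : XY P, Φ p = (σ p.1, p.2) := fun p => rfl
  refine ⟨E0 + m0 + 1, Φ ⁻¹' C, ?_, ?_, NI.preimage Φ hCNI, ?_⟩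
  · intro p hp
    apply hm
    intro x hx
    have hx' := abs_le.1 hx
    have h1 := (hC _ hp).1
    constructor
    · have h2 := (h1 (x - s) (by rw [abs_le]; push_cast; constructor <;> omega)).1
      rw [hΦ] at h2
      rw [hσ, hσ, sub_add_cancel] at h2
      exact h2
    · exact (h1 x (by rw [abs_le]; push_cast; constructor <;> omega)).2
  · obtain ⟨c, hc⟩ := hCne
    refine ⟨Φ.symm c, ?_⟩
    show Φ (Φ.symm c) ∈ C
    rw [Φ.apply_symm_apply]
    exact hc
  · intro p hp n hn hpn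
    have hx0' := abs_le.1 hx0
    obtain ⟨h1, h2⟩ := hC _ hp
    rw [hΦ] at h1 h2
    -- the chain of equalities
    have e1 : p.2.1 (x0 + 2 * n) = p.2.1 x0 :=
      (hpn x0 (by rw [abs_le]; push_cast; constructor <;> omega)).2
    have e2 : p.1.1 (x0 + s + 2 * n) = p.1.1 (x0 + s) :=
      (hpn (x0 + s) (by rw [abs_le]; push_cast; constructor <;> omega)).1
    have e3 := h2 (x0 + 2 * n) (by omega)
    have e4 := h1 x0 (by rw [abs_le]; push_cast; constructor <;> omega)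
    apply hx0ne
    have e3' : p.1.1 (x0 + 2 * n + s) = p.2.1 (x0 + 2 * n) := by
      rw [← hσ]
      exact e3
    have e4' : p.1.1 (x0 + s) = p0.1.1 (x0 + s) := by
      rw [← hσ, ← hσ]
      exact e4.1
    have e4'' : p.2.1 x0 = p0.2.1 x0 := e4.2
    rw [← e4', ← e4'', ← e1, ← e3', ← e2]
    ring_nf

end Pool.Agent.W19.NR
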